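import Pool.Agent.Q167.Words.IrrSum

/-!
# The number of subword complexity sequences is subexponential
-/

set_option autoImplicit false

namespace Q167.Words

/-- `p_w(m)`: the number of distinct subwords (factors) of length `m` of the word `w`. -/
noncomputable def numSub {k : ℕ} (w : List (Fin k)) (m : ℕ) : ℕ :=
  Set.ncard {u : List (Fin k) | u.length = m ∧ u <:+: w}

/-- `a_k(n)`: the number of distinct sequences `(p_w(1), ..., p_w(n))`, where `w` ranges over all
words of length `n` over an alphabet with `k` letters. -/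
noncomputable def numSeq (k n : ℕ) : ℕ :=
  Set.ncard {p : Fin n → ℕ | ∃ w : List (Fin k), w.length = n ∧
    ∀ i : Fin n, p i = numSub w ((i : ℕ) + 1)}

/-- The word with sentinels. -/
def sent {k : ℕ} (w : List (Fin k)) (x : ℕ) : ℕ :=
  if x = 0 then k + 1 else if h : x - 1 < w.length then (w[x - 1] : ℕ) + 1 else 0

lemma sent_sent {k : ℕ} (w : List (Fin k)) : Sent w.length (sent w) := by
  constructor
  · intro x
    unfold sent
    by_cases h0 : x = 0
    · rw [if_pos h0]; omega
    · rw [if_neg h0]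
      by_cases h : x - 1 < w.length
      · rw [dif_pos h]; omega
      · rw [dif_neg h]; simp only [true_iff]; omega
  · intro x hx
    unfold sent
    rw [if_pos rfl, if_neg (by omega)]
    by_cases h : x - 1 < w.length
    · rw [dif_pos h]
      have := (w[x - 1]).2
      omega
    · rw [dif_neg h]; omega

/-- The subword of length `m` starting at the position `i` (counted from `1`). -/
def fac {k : ℕ} (w : List (Fin k)) (m i : ℕ) : List (Fin k) := (w.drop (i - 1)).take m

lemma fac_eq_iff {k : ℕ} (w : List (Fin k)) {m i j : ℕ} (hi1 : 1 ≤ i) (hi : i + m ≤ w.length + 1)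
    (hj1 : 1 ≤ j) (hj : j + m ≤ w.length + 1) : fac w m i = fac w m j ↔ Agree (sent w) i j m := by
  have hlen : ∀ l, 1 ≤ l → l + m ≤ w.length + 1 → (fac w m l).length = m := by
    intro l h1 h2
    unfold fac
    rw [List.length_take, List.length_drop]
    omega
  have hget : ∀ l t, 1 ≤ l → l + m ≤ w.length + 1 → t < m →
      sent w (l + t) = ((fac w m l)[t]?.map (fun c => (c : ℕ) + 1)).getD 0 := by
    intro l t h1 h2 ht
    unfold sent fac
    have h3 : l + t - 1 < w.length := by omega
    rw [if_neg (by omega), dif_pos h3, List.getElem?_take_of_lt ht, List.getElem?_drop,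
      show l - 1 + t = l + t - 1 by omega, List.getElem?_eq_getElem h3]
    rfl
  constructor
  · intro h t ht
    rw [hget i t hi1 hi ht, hget j t hj1 hj ht, h]
  · intro h
    apply List.ext_getElem
    · rw [hlen i hi1 hi, hlen j hj1 hj]
    · intro t h1 h2
      have ht : t < m := by rw [hlen i hi1 hi] at h1; exact h1
      have h3 := h t ht
      rw [hget i t hi1 hi ht, hget j t hj1 hj ht, List.getElem?_eq_getElem h1,
        List.getElem?_eq_getElem h2] at h3
      have h4 : ((fac w m i)[t] : ℕ) + 1 = ((fac w m j)[t] : ℕ) + 1 := h3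
      exact Fin.ext (by omega)

lemma set_fac {k : ℕ} (w : List (Fin k)) {m : ℕ} (hm1 : 1 ≤ m) (hm : m ≤ w.length) :
    {u : List (Fin k) | u.length = m ∧ u <:+: w} =
      (((Finset.Icc 1 (w.length + 1 - m)).image (fac w m) : Finset (List (Fin k))) :
        Set (List (Fin k))) := by
  ext u
  simp only [Set.mem_ofPred_eq, Finset.coe_image, Finset.coe_Icc, Set.mem_image, Set.mem_Icc]
  constructor
  · rintro ⟨hu, s, t, rfl⟩
    refine ⟨s.length + 1, ⟨by omega, ?_⟩, ?_⟩
    · simp only [List.length_append]; omega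
    · unfold fac
      rw [Nat.add_sub_cancel, List.append_assoc, List.drop_left, ← hu, List.take_left]
  · rintro ⟨i, ⟨hi1, hi⟩, rfl⟩
    refine ⟨?_, ?_⟩
    · unfold fac
      rw [List.length_take, List.length_drop]; omega
    · unfold fac
      exact (List.take_prefix _ _).isInfix.trans (List.drop_suffix _ _).isInfix

open Classical in
/-- The subword complexity in terms of the repetitions. -/
lemma numSub_add {k : ℕ} (w : List (Fin k)) {m : ℕ} (hm1 : 1 ≤ m) (hm : m ≤ w.length) :
    numSub w m + ((Finset.Icc 1 w.length).filter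
      (fun i => Rep w.length (sent w) i m)).card = w.length + 1 - m := by
  have hW := sent_sent w
  set n := w.length with hn
  set P := Finset.Icc 1 (n + 1 - m) with hP
  unfold numSub
  rw [set_fac w hm1 hm, Set.ncard_coe_finset, ← hn, ← hP]
  -- minimal representatives
  have h1 : (P.image (fac w m)).card = (P.filter (fun i => ¬ Rep n (sent w) i m)).card := by
    have h2 : P.image (fac w m) = (P.filter (fun i => ¬ Rep n (sent w) i m)).image (fac w m) := by
      apply le_antisymm
      · intro u hu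
        rw [Finset.mem_image] at hu
        obtain ⟨i, hi, rfl⟩ := hu
        obtain ⟨j, hj, hjmin⟩ := Finset.exists_min_image (P.filter (fun j => fac w m j = fac w m i))
          (suf (sent w)) ⟨i, by rw [Finset.mem_filter]; exact ⟨hi, rfl⟩⟩
        rw [Finset.mem_filter] at hj
        rw [Finset.mem_image]
        refine ⟨j, ?_, hj.2⟩
        rw [Finset.mem_filter]
        refine ⟨hj.1, ?_⟩
        rintro ⟨l, hl1, hl2, hl3, hl4⟩
        rw [hP, Finset.mem_Icc] at hj
        have h3 : l + m ≤ n + 1 := hl4.symm.le hW (by rintro rfl; exact lt_irrefl _ hl3) hl2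
          (by omega)
        have h4 : l ∈ P.filter (fun j => fac w m j = fac w m i) := by
          rw [Finset.mem_filter, hP, Finset.mem_Icc]
          refine ⟨⟨hl1, by omega⟩, ?_⟩
          rw [← hj.2]
          exact (fac_eq_iff w hl1 h3 hj.1.1 (by omega)).2 hl4.symm
        exact absurd hl3 (not_lt.2 (hjmin l h4))
      · exact Finset.image_subset_image (Finset.filter_subset _ _)
    rw [h2, Finset.card_image_of_injOn]
    intro i hi j hj hij
    rw [Finset.mem_coe, Finset.mem_filter, hP, Finset.mem_Icc] at hi hj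
    have hag := (fac_eq_iff w hi.1.1 (by omega) hj.1.1 (by omega)).1 hij
    by_contra hne
    rcases lt_or_gt_of_ne (suf_ne hW hne (by omega) (by omega)) with h | h
    · exact hj.2 ⟨i, hi.1.1, by omega, h, hag.symm⟩
    · exact hi.2 ⟨j, hj.1.1, by omega, h, hag⟩
  have h3 : (Finset.Icc 1 n).filter (fun i => Rep n (sent w) i m) =
      P.filter (fun i => Rep n (sent w) i m) := by
    ext i
    rw [Finset.mem_filter, Finset.mem_filter, hP, Finset.mem_Icc, Finset.mem_Icc]
    constructor
    · rintro ⟨⟨h1, h2⟩, h3⟩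
      have := h3.le hW h2
      exact ⟨⟨h1, by omega⟩, h3⟩
    · rintro ⟨⟨h1, h2⟩, h3⟩
      exact ⟨⟨h1, by omega⟩, h3⟩
  rw [h1, h3, add_comm, Finset.card_filter_add_card_filter_not, hP, Nat.card_Icc]
  omega

open Classical in
/-- The large irreducible values. -/
noncomputable def bigIrr (n : ℕ) (W : ℕ → ℕ) (L : ℕ) : Finset (ℕ × ℕ) :=
  ((Finset.Icc 1 n).filter (fun i => Irr n W i ∧ L ≤ ell n W i)).image (fun i => (i, ell n W i))

lemma bigIrr_card {n : ℕ} {W : ℕ → ℕ} (hW : Sent n W) (L : ℕ) :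
    (bigIrr n W L).card * L ≤ 2 * (n * Nat.log 2 n) := by
  classical
  have h1 : (bigIrr n W L).card =
      ((Finset.Icc 1 n).filter (fun i => Irr n W i ∧ L ≤ ell n W i)).card := by
    unfold bigIrr
    exact Finset.card_image_of_injective _ (fun a b h => (Prod.mk.injEq _ _ _ _ ▸ h).1)
  rw [h1]
  calc ((Finset.Icc 1 n).filter (fun i => Irr n W i ∧ L ≤ ell n W i)).card * L
      = ∑ _i ∈ (Finset.Icc 1 n).filter (fun i => Irr n W i ∧ L ≤ ell n W i), L := by
        rw [Finset.sum_const, smul_eq_mul]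
    _ ≤ ∑ i ∈ (Finset.Icc 1 n).filter (fun i => Irr n W i ∧ L ≤ ell n W i), ell n W i := by
        apply Finset.sum_le_sum
        intro i hi
        rw [Finset.mem_filter] at hi
        exact hi.2.2
    _ ≤ ∑ i ∈ (Finset.Icc 1 n).filter (fun i => Irr n W i), ell n W i := by
        apply Finset.sum_le_sum_of_subset
        intro i hi
        rw [Finset.mem_filter] at hi ⊢
        exact ⟨hi.1, hi.2.1⟩
    _ ≤ _ := sum_irr_le hW

lemma bigIrr_subset {n : ℕ} {W : ℕ → ℕ} (hW : Sent n W) {L : ℕ} (hL : 1 ≤ L) :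
    bigIrr n W L ⊆ Finset.Icc 1 n ×ˢ Finset.Icc 1 n := by
  classical
  intro q hq
  unfold bigIrr at hq
  rw [Finset.mem_image] at hq
  obtain ⟨i, hi, rfl⟩ := hq
  rw [Finset.mem_filter, Finset.mem_Icc] at hi
  have := ell_le hW hi.1.1 hi.1.2
  rw [Finset.mem_product, Finset.mem_Icc, Finset.mem_Icc]
  exact ⟨hi.1, by omega, by simp only; omega⟩

/-- The long repetitions are determined by the large irreducible values. -/
lemma rep_iff {n : ℕ} {W : ℕ → ℕ} (hW : Sent n W) {L m i : ℕ} (hL : 1 ≤ L) (hm : L ≤ m)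
    (hi1 : 1 ≤ i) (hi : i ≤ n) :
    Rep n W i m ↔ ∃ q ∈ bigIrr n W L, q.1 ≤ i ∧ i + m ≤ q.1 + q.2 := by
  classical
  rw [← le_ell_iff hW hi1 hi (by omega)]
  constructor
  · intro h
    obtain ⟨i₀, h1, h2, h3, h4⟩ := exists_irr hW hi1 hi
    refine ⟨(i₀, ell n W i₀), ?_, h2, by simp only; omega⟩
    unfold bigIrr
    rw [Finset.mem_image]
    refine ⟨i₀, ?_, rfl⟩
    rw [Finset.mem_filter, Finset.mem_Icc]
    exact ⟨⟨h1, by omega⟩, h3, by omega⟩
  · rintro ⟨q, hq, h1, h2⟩
    unfold bigIrr at hq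
    rw [Finset.mem_image] at hq
    obtain ⟨i₀, h3, rfl⟩ := hq
    rw [Finset.mem_filter, Finset.mem_Icc] at h3
    simp only at h1 h2
    have h4 := ell_add hW h3.1.1 (i - i₀) (by omega)
    rw [show i₀ + (i - i₀) = i by omega] at h4
    omega

lemma card_small_subsets {α : Type*} [DecidableEq α] (U : Finset α) (J : ℕ) :
    (U.powerset.filter (fun T => T.card ≤ J)).card ≤ (U.card + 1) ^ J := by
  induction J with
  | zero =>
    have h1 : U.powerset.filter (fun T => T.card ≤ 0) ⊆ {∅} := by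
      intro T hT
      rw [Finset.mem_filter, Nat.le_zero, Finset.card_eq_zero] at hT
      rw [Finset.mem_singleton]
      exact hT.2
    exact (Finset.card_le_card h1).trans (by simp)
  | succ J ih =>
    have h1 : U.powerset.filter (fun T => T.card ≤ J + 1) ⊆
        (Finset.insertNone U ×ˢ (U.powerset.filter (fun T => T.card ≤ J))).image
          (fun q => q.1.elim q.2 (fun x => insert x q.2)) := by
      intro T hT
      rw [Finset.mem_filter, Finset.mem_powerset] at hT
      rw [Finset.mem_image]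
      rcases T.eq_empty_or_nonempty with rfl | ⟨x, hx⟩
      · refine ⟨(none, ∅), ?_, rfl⟩
        rw [Finset.mem_product, Finset.mem_filter]
        exact ⟨by simp, by simp, by simp⟩
      · refine ⟨(some x, T.erase x), ?_, ?_⟩
        · rw [Finset.mem_product, Finset.mem_filter, Finset.mem_powerset]
          refine ⟨by simpa using hT.1 hx, (Finset.erase_subset _ _).trans hT.1, ?_⟩
          rw [Finset.card_erase_of_mem hx]
          omega
        · simpa using Finset.insert_erase hx
    calc _ ≤ _ := Finset.card_le_card h1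
      _ ≤ _ := Finset.card_image_le
      _ = (U.card + 1) * (U.powerset.filter (fun T => T.card ≤ J)).card := by
          rw [Finset.card_product, Finset.card_insertNone]
      _ ≤ (U.card + 1) * (U.card + 1) ^ J := Nat.mul_le_mul_left _ ih
      _ = _ := by rw [pow_succ, mul_comm]

/-- The number of complexity sequences, with a threshold `L`. -/
theorem numSeq_le_aux (k n L : ℕ) (hL : 1 ≤ L) :
    numSeq k n ≤ (n + 1) ^ L * (n * n + 1) ^ (2 * (n * Nat.log 2 n) / L) := by
  classical
  set J := 2 * (n * Nat.log 2 n) / L with hJ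
  set U : Finset (ℕ × ℕ) := Finset.Icc 1 n ×ˢ Finset.Icc 1 n with hU
  set 𝒯 : Finset (Finset (ℕ × ℕ)) := U.powerset.filter (fun T => T.card ≤ J) with h𝒯
  let dec : (Fin L → Fin (n + 1)) × Finset (ℕ × ℕ) → (Fin n → ℕ) := fun q i =>
    if h : (i : ℕ) < L then (q.1 ⟨i, h⟩ : ℕ)
    else n - (i : ℕ) - ((Finset.Icc 1 n).filter
      (fun l => ∃ r ∈ q.2, r.1 ≤ l ∧ l + (i + 1) ≤ r.1 + r.2)).card
  have hsub : {p : Fin n → ℕ | ∃ w : List (Fin k), w.length = n ∧
      ∀ i : Fin n, p i = numSub w ((i : ℕ) + 1)} ⊆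
      (((Finset.univ ×ˢ 𝒯).image dec : Finset (Fin n → ℕ)) : Set (Fin n → ℕ)) := by
    rintro p ⟨w, hw, hp⟩
    have hW := sent_sent w
    rw [Finset.mem_coe, Finset.mem_image]
    have hbound : ∀ i : Fin n, numSub w ((i : ℕ) + 1) ≤ n := by
      intro i
      have := numSub_add w (m := (i : ℕ) + 1) (by omega) (by have := i.2; omega)
      omega
    refine ⟨(fun i => if h : (i : ℕ) < n then ⟨numSub w ((i : ℕ) + 1), by
        have := hbound ⟨i, h⟩
        simp only at this
        omega⟩ else 0,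
      bigIrr w.length (sent w) L), ?_, ?_⟩
    · rw [Finset.mem_product, h𝒯, Finset.mem_filter, Finset.mem_powerset]
      refine ⟨Finset.mem_univ _, ?_, ?_⟩
      · have := bigIrr_subset hW hL
        rw [hw] at this
        simp only [hw]
        exact this
      · have h1 := bigIrr_card hW L
        rw [hw] at h1
        simp only [hw]
        rw [hJ, Nat.le_div_iff_mul_le (by omega)]
        exact h1
    · funext i
      simp only [dec]
      by_cases h : (i : ℕ) < L
      · rw [dif_pos h, dif_pos i.2, hp i]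
      · rw [dif_neg h, hp i]
        have h1 := numSub_add w (m := (i : ℕ) + 1) (by omega) (by have := i.2; omega)
        have h2 : ∀ m, L ≤ m →
            (Finset.Icc 1 w.length).filter (fun l => Rep w.length (sent w) l m) =
            (Finset.Icc 1 n).filter (fun l => ∃ r ∈ bigIrr w.length (sent w) L,
              r.1 ≤ l ∧ l + m ≤ r.1 + r.2) := by
          intro m hm
          rw [← hw]
          apply Finset.filter_congr
          intro l hl
          rw [Finset.mem_Icc] at hl
          exact rep_iff hW hL hm hl.1 hl.2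
        rw [h2 _ (by omega)] at h1
        omega
  have h1 : numSeq k n ≤ ((Finset.univ ×ˢ 𝒯).image dec).card := by
    unfold numSeq
    rw [← Set.ncard_coe_finset]
    exact Set.ncard_le_ncard hsub (Finset.finite_toSet _)
  refine h1.trans (Finset.card_image_le.trans ?_)
  rw [Finset.card_product, Finset.card_univ, Fintype.card_fun, Fintype.card_fin, Fintype.card_fin]
  have h2 := card_small_subsets U J
  have h3 : U.card = n * n := by rw [hU, Finset.card_product, Nat.card_Icc]; simp
  rw [h3] at h2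
  exact Nat.mul_le_mul_left _ h2

/-- `a_k(n) ≤ (n + 1) ^ (√n (12 log₂ n + 1))`. -/
theorem numSeq_le (k n : ℕ) :
    numSeq k n ≤ (n + 1) ^ (Nat.sqrt n * (12 * Nat.log 2 n + 1)) := by
  rcases Nat.eq_zero_or_pos n with rfl | hn
  · have := numSeq_le_aux k 0 1 le_rfl
    simpa using this
  · have hL : 1 ≤ Nat.sqrt n := Nat.sqrt_pos.2 hn
    refine (numSeq_le_aux k n (Nat.sqrt n) hL).trans ?_
    set L := Nat.sqrt n with hLdef
    set l := Nat.log 2 n with hl
    have h1 : n ≤ L * L + L + L := Nat.sqrt_le_add n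
    have h2 : 2 * (n * l) / L ≤ 6 * L * l := by
      apply Nat.div_le_of_le_mul
      have h3 : n ≤ 3 * (L * L) := by nlinarith
      calc 2 * (n * l) ≤ 2 * (3 * (L * L) * l) := by gcongr
        _ = L * (6 * L * l) := by ring
    calc (n + 1) ^ L * (n * n + 1) ^ (2 * (n * l) / L)
        ≤ (n + 1) ^ L * ((n + 1) ^ 2) ^ (2 * (n * l) / L) := by
          gcongr
          nlinarith
      _ ≤ (n + 1) ^ L * ((n + 1) ^ 2) ^ (6 * L * l) := by
          gcongr
          · nlinarith
      _ = (n + 1) ^ (L * (12 * l + 1)) := by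
          rw [← pow_mul, ← pow_add]
          congr 1
          ring

/-- For large `n` we have `a_k(n) ^ 4 ≤ 2 ^ n`. -/
theorem numSeq_pow_le (k n : ℕ) (hn : 2 ^ 40 ≤ n) : numSeq k n ^ 4 ≤ 2 ^ n := by
  set l := Nat.log 2 n with hl
  have hn0 : n ≠ 0 := by
    have : 0 < 2 ^ 40 := by positivity
    omega
  have hl40 : 40 ≤ l := Nat.le_log_of_pow_le (by norm_num) hn
  have h1 : n + 1 ≤ 2 ^ (l + 1) := Nat.lt_pow_succ_log_self (by norm_num) n
  have h2 : 2 ^ l ≤ n := Nat.pow_log_le_self 2 hn0
  have h3 : ∀ l : ℕ, 40 ≤ l → (52 * (l + 1) ^ 2) ^ 2 ≤ 2 ^ l := by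
    intro l hl
    induction l, hl using Nat.le_induction with
    | base => norm_num
    | succ l hl ih =>
      rw [pow_succ 2 l]
      refine le_trans ?_ (Nat.mul_le_mul_right 2 ih)
      have h4 : (l + 1 + 1) ^ 2 * 5 ≤ (l + 1) ^ 2 * 6 := by nlinarith
      have h5 : ((l + 1 + 1) ^ 2 * 5) ^ 2 ≤ ((l + 1) ^ 2 * 6) ^ 2 := Nat.pow_le_pow_left h4 2
      nlinarith
  have h4 : 52 * (l + 1) ^ 2 ≤ Nat.sqrt n := by
    rw [Nat.le_sqrt']
    exact (h3 l hl40).trans h2
  have h5 : Nat.sqrt n * Nat.sqrt n ≤ n := Nat.sqrt_le n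
  calc numSeq k n ^ 4 ≤ ((n + 1) ^ (Nat.sqrt n * (12 * l + 1))) ^ 4 :=
        Nat.pow_le_pow_left (numSeq_le k n) 4
    _ ≤ ((2 ^ (l + 1)) ^ (Nat.sqrt n * (12 * l + 1))) ^ 4 := by gcongr
    _ = 2 ^ (Nat.sqrt n * (4 * ((l + 1) * (12 * l + 1)))) := by
        rw [← pow_mul, ← pow_mul]
        congr 1
        ring
    _ ≤ 2 ^ (Nat.sqrt n * Nat.sqrt n) := by
        apply Nat.pow_le_pow_right (by norm_num)
        apply Nat.mul_le_mul_left
        nlinarith
    _ ≤ 2 ^ n := Nat.pow_le_pow_right (by norm_num) h5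

open Filter in
/-- The ratio of `a_k(n)` and `2 ^ (n / 2)` tends to `0`, even with any constant factor. -/
theorem tendsto_ratio (k : ℕ) {C : ℝ} (hC : 0 < C) :
    Tendsto (fun n : ℕ => (numSeq k n : ℝ) / (C * (2 : ℝ) ^ ((n : ℝ) / 2))) atTop (nhds 0) := by
  have hbound : ∀ n : ℕ, 2 ^ 40 ≤ n → (numSeq k n : ℝ) / (C * (2 : ℝ) ^ ((n : ℝ) / 2)) ≤
      C⁻¹ * ((2 : ℝ) ^ (-(1 / 4) : ℝ)) ^ n := by
    intro n hn
    have h1 : ((numSeq k n : ℝ)) ^ 4 ≤ ((2 : ℝ) ^ ((n : ℝ) / 4)) ^ 4 := by
      have h2 : ((numSeq k n : ℝ)) ^ 4 ≤ 2 ^ n := by exact_mod_cast numSeq_pow_le k n hn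
      refine h2.trans (le_of_eq ?_)
      rw [← Real.rpow_natCast (_ ^ _) 4, ← Real.rpow_mul (by norm_num), ← Real.rpow_natCast 2 n]
      congr 1
      push_cast
      ring
    have h2 : (numSeq k n : ℝ) ≤ (2 : ℝ) ^ ((n : ℝ) / 4) :=
      le_of_pow_le_pow_left₀ (by norm_num) (by positivity) h1
    have h3 : ((2 : ℝ) ^ (-(1 / 4) : ℝ)) ^ n = (2 : ℝ) ^ ((n : ℝ) / 4) / (2 : ℝ) ^ ((n : ℝ) / 2) := by
      rw [← Real.rpow_sub (by norm_num), ← Real.rpow_natCast, ← Real.rpow_mul (by norm_num)]
      congr 1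
      ring
    rw [h3, div_le_iff₀ (by positivity)]
    have h4 : C⁻¹ * ((2 : ℝ) ^ ((n : ℝ) / 4) / (2 : ℝ) ^ ((n : ℝ) / 2)) *
        (C * (2 : ℝ) ^ ((n : ℝ) / 2)) = (2 : ℝ) ^ ((n : ℝ) / 4) := by
      field_simp
    rw [h4]
    exact h2
  have hlim : Tendsto (fun n : ℕ => C⁻¹ * ((2 : ℝ) ^ (-(1 / 4) : ℝ)) ^ n) atTop (nhds 0) := by
    have h1 : Tendsto (fun n : ℕ => ((2 : ℝ) ^ (-(1 / 4) : ℝ)) ^ n) atTop (nhds 0) := by
      apply tendsto_pow_atTop_nhds_zero_of_lt_one (by positivity)
      apply Real.rpow_lt_one_of_one_lt_of_neg (by norm_num) (by norm_num)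
    simpa using h1.const_mul C⁻¹
  refine squeeze_zero' (Eventually.of_forall fun n => by positivity) ?_ hlim
  filter_upwards [eventually_ge_atTop (2 ^ 40)] with n hn
  exact hbound n hn

end Q167.Words
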