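import Pool.Agent.Q167.Words.Lcp

/-!
# The sum of the irreducible values of the longest common prefix array

The sum is at most `2 n log₂ n` (small-to-large argument on the trie of the reversed prefixes).
-/

set_option autoImplicit false

namespace Q167.Words

variable {n : ℕ} {W : ℕ → ℕ}

/-- The words of length `k` ending at `x` and at `z` agree. -/
def Back (W : ℕ → ℕ) (x z k : ℕ) : Prop := k ≤ x + 1 ∧ k ≤ z + 1 ∧ ∀ t < k, W (x - t) = W (z - t)

lemma Back.symm {x z k : ℕ} (h : Back W x z k) : Back W z x k :=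
  ⟨h.2.1, h.1, fun t ht => (h.2.2 t ht).symm⟩

lemma Back.trans {x y z k : ℕ} (h : Back W x y k) (h' : Back W y z k) : Back W x z k :=
  ⟨h.1, h'.2.1, fun t ht => (h.2.2 t ht).trans (h'.2.2 t ht)⟩

lemma Back.mono {x z k k' : ℕ} (h : Back W x z k) (hk : k' ≤ k) : Back W x z k' :=
  ⟨hk.trans h.1, hk.trans h.2.1, fun t ht => h.2.2 t (lt_of_lt_of_le ht hk)⟩

open Classical in
/-- The number of positions `z` with the same word of length `k` ending there as at `x`. -/
noncomputable def NB (n : ℕ) (W : ℕ → ℕ) (x k : ℕ) : ℕ :=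
  ((Finset.Icc 1 n).filter (fun z => Back W x z k)).card

/-- The child of the node of depth `k` above `x` is light. -/
def Light (n : ℕ) (W : ℕ → ℕ) (x k : ℕ) : Prop := 2 * NB n W x (k + 1) ≤ NB n W x k

lemma NB_mono {x k k' : ℕ} (hk : k' ≤ k) : NB n W x k ≤ NB n W x k' := by
  classical
  apply Finset.card_le_card
  intro z hz
  rw [Finset.mem_filter] at hz ⊢
  exact ⟨hz.1, hz.2.mono hk⟩

lemma light_or {x z k : ℕ} (h : Back W x z k) (h' : ¬ Back W x z (k + 1)) :
    Light n W x k ∨ Light n W z k := by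
  classical
  have h1 : NB n W z k = NB n W x k := by
    unfold NB
    congr 1
    ext y
    rw [Finset.mem_filter, Finset.mem_filter]
    exact ⟨fun hy => ⟨hy.1, h.trans hy.2⟩, fun hy => ⟨hy.1, h.symm.trans hy.2⟩⟩
  have h2 : NB n W x (k + 1) + NB n W z (k + 1) ≤ NB n W x k := by
    unfold NB
    rw [← Finset.card_union_of_disjoint]
    · apply Finset.card_le_card
      intro y hy
      rw [Finset.mem_union, Finset.mem_filter, Finset.mem_filter] at hy
      rw [Finset.mem_filter]
      rcases hy with hy | hy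
      · exact ⟨hy.1, hy.2.mono (Nat.le_succ _)⟩
      · exact ⟨hy.1, h.trans (hy.2.mono (Nat.le_succ _))⟩
    · rw [Finset.disjoint_left]
      intro y hy hy'
      rw [Finset.mem_filter] at hy hy'
      exact h' (hy.2.trans hy'.2.symm)
  unfold Light
  omega

open Classical in
lemma light_count {x : ℕ} (K : ℕ) (hK : K ≤ x) :
    2 ^ ((Finset.Icc 1 K).filter (fun k => Light n W x k)).card * NB n W x (K + 1) ≤ n := by
  induction K with
  | zero =>
    simp only [zero_add]
    have h1 : NB n W x 1 ≤ n := by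
      unfold NB
      refine (Finset.card_filter_le _ _).trans ?_
      simp
    simpa using h1
  | succ K ih =>
    have h1 := ih (by omega)
    have h2 : Finset.Icc 1 (K + 1) = insert (K + 1) (Finset.Icc 1 K) := by
      ext y
      simp only [Finset.mem_Icc, Finset.mem_insert]
      omega
    rw [h2, Finset.filter_insert]
    split_ifs with hl
    · rw [Finset.card_insert_of_notMem (by simp), pow_succ]
      unfold Light at hl
      refine le_trans ?_ h1
      calc 2 ^ ((Finset.Icc 1 K).filter (fun k => Light n W x k)).card * 2 * NB n W x (K + 1 + 1)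
          = 2 ^ ((Finset.Icc 1 K).filter (fun k => Light n W x k)).card *
            (2 * NB n W x (K + 1 + 1)) := by ring
        _ ≤ _ := Nat.mul_le_mul_left _ hl
    · exact (Nat.mul_le_mul_left _ (NB_mono (Nat.le_succ _))).trans h1

open Classical in
lemma light_card {x : ℕ} (hx1 : 1 ≤ x) (hx : x ≤ n) :
    ((Finset.Icc 1 x).filter (fun k => Light n W x k)).card ≤ Nat.log 2 n := by
  have h1 := light_count (n := n) (W := W) (x := x) x le_rfl
  have h2 : 1 ≤ NB n W x (x + 1) := by
    unfold NB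
    rw [Nat.one_le_iff_ne_zero, Ne, Finset.card_eq_zero, ← Ne, ← Finset.nonempty_iff_ne_empty]
    refine ⟨x, ?_⟩
    rw [Finset.mem_filter, Finset.mem_Icc]
    exact ⟨⟨hx1, hx⟩, le_rfl, le_rfl, fun _ _ => rfl⟩
  apply Nat.le_log_of_pow_le (by norm_num)
  exact le_trans (Nat.le_mul_of_pos_right _ h2) h1

open Classical in
/-- The sum of the irreducible values is at most `2 n log₂ n`. -/
theorem sum_irr_le (hW : Sent n W) :
    ∑ i ∈ (Finset.Icc 1 n).filter (fun i => Irr n W i), ell n W i ≤ 2 * (n * Nat.log 2 n) := by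
  obtain ⟨Φ, hΦ, hinj⟩ := exists_pred hW
  set E : Finset (Σ _ : ℕ, ℕ) := ((Finset.Icc 1 n).filter (fun i => Irr n W i)).sigma
    (fun i => Finset.Icc 1 (ell n W i)) with hE
  set T : Finset (Σ _ : ℕ, ℕ) := (Finset.Icc 1 n).sigma
    (fun x => (Finset.Icc 1 x).filter (fun k => Light n W x k)) with hT
  have hcE : E.card = ∑ i ∈ (Finset.Icc 1 n).filter (fun i => Irr n W i), ell n W i := by
    rw [hE, Finset.card_sigma]
    simp
  have hcT : T.card ≤ n * Nat.log 2 n := by
    rw [hT, Finset.card_sigma]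
    refine (Finset.sum_le_card_nsmul _ _ (Nat.log 2 n) ?_).trans ?_
    · intro x hx
      rw [Finset.mem_Icc] at hx
      exact light_card hx.1 hx.2
    · simp
  rw [← hcE]
  have hfacts : ∀ p ∈ E, 1 ≤ p.1 ∧ p.1 ≤ n ∧ Irr n W p.1 ∧ 1 ≤ p.2 ∧ p.2 ≤ ell n W p.1 ∧
      p.1 + p.2 ≤ n + 1 ∧ 1 ≤ Φ p.1 ∧ Φ p.1 ≤ n ∧ Φ p.1 + p.2 ≤ n + 1 ∧
      (Light n W (p.1 + p.2 - 1) p.2 ∨ Light n W (Φ p.1 + p.2 - 1) p.2) := by
    rintro ⟨i, k⟩ hp
    rw [hE, Finset.mem_sigma, Finset.mem_filter, Finset.mem_Icc, Finset.mem_Icc] at hp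
    obtain ⟨⟨⟨hi1, hi⟩, hirr⟩, hk1, hk⟩ := hp
    simp only at hi1 hi hirr hk1 hk ⊢
    have hl : 1 ≤ ell n W i := by omega
    obtain ⟨hj1, hj, hlt, hag⟩ := hΦ i hi1 hi hl
    have hne : Φ i ≠ i := by intro h; rw [h] at hlt; exact lt_irrefl _ hlt
    have h1 := ell_le hW hi1 hi
    have h2 := (hag.symm).le hW hne hj hi
    have h3 := left_ne hW hi1 hi hl hirr hj1 hj hlt hag
    refine ⟨hi1, hi, hirr, hk1, hk, by omega, hj1, hj, by omega, ?_⟩
    apply light_or
    · refine ⟨by omega, by omega, fun t ht => ?_⟩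
      have := hag (k - 1 - t) (by omega)
      rw [show i + k - 1 - t = i + (k - 1 - t) by omega,
        show Φ i + k - 1 - t = Φ i + (k - 1 - t) by omega]
      exact this
    · rintro ⟨_, _, h4⟩
      have h5 := h4 k (by omega)
      rw [show i + k - 1 - k = i - 1 by omega, show Φ i + k - 1 - k = Φ i - 1 by omega] at h5
      exact h3 h5
  have hinjOn : E.card ≤ ((Finset.univ : Finset Bool) ×ˢ T).card := by
    apply Finset.card_le_card_of_injOn (fun p : (Σ _ : ℕ, ℕ) =>
      if Light n W (p.1 + p.2 - 1) p.2 then (true, (⟨p.1 + p.2 - 1, p.2⟩ : Σ _ : ℕ, ℕ))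
      else (false, (⟨Φ p.1 + p.2 - 1, p.2⟩ : Σ _ : ℕ, ℕ)))
    · intro p hp
      rw [Finset.mem_coe] at hp
      obtain ⟨h1, h2, h3, h4, h5, h6, h7, h8, h9, h10⟩ := hfacts p hp
      rw [Finset.mem_coe, Finset.mem_product]
      refine ⟨Finset.mem_univ _, ?_⟩
      beta_reduce
      by_cases hl : Light n W (p.1 + p.2 - 1) p.2
      · rw [if_pos hl, hT, Finset.mem_sigma, Finset.mem_Icc, Finset.mem_filter, Finset.mem_Icc]
        exact ⟨⟨by simp only; omega, by simp only; omega⟩, ⟨h4, by simp only; omega⟩, hl⟩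
      · rw [if_neg hl, hT, Finset.mem_sigma, Finset.mem_Icc, Finset.mem_filter, Finset.mem_Icc]
        exact ⟨⟨by simp only; omega, by simp only; omega⟩, ⟨h4, by simp only; omega⟩,
          h10.resolve_left hl⟩
    · intro p hp q hq hpq
      rw [Finset.mem_coe] at hp hq
      obtain ⟨h1, h2, h3, h4, h5, h6, h7, h8, h9, h10⟩ := hfacts p hp
      obtain ⟨g1, g2, g3, g4, g5, g6, g7, g8, g9, g10⟩ := hfacts q hq
      obtain ⟨i, k⟩ := p
      obtain ⟨i', k'⟩ := q
      simp only at *
      by_cases hl : Light n W (i + k - 1) k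
      · by_cases hl' : Light n W (i' + k' - 1) k'
        · rw [if_pos hl, if_pos hl'] at hpq
          simp only [Prod.mk.injEq, Sigma.mk.injEq, heq_eq_eq, true_and] at hpq
          obtain ⟨e1, e2⟩ := hpq
          subst e2
          have : i = i' := by omega
          rw [this]
        · rw [if_pos hl, if_neg hl'] at hpq
          simp at hpq
      · by_cases hl' : Light n W (i' + k' - 1) k'
        · rw [if_neg hl, if_pos hl'] at hpq
          simp at hpq
        · rw [if_neg hl, if_neg hl'] at hpq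
          simp only [Prod.mk.injEq, Sigma.mk.injEq, heq_eq_eq, true_and] at hpq
          obtain ⟨e1, e2⟩ := hpq
          subst e2
          have : i = i' := hinj i i' h1 h2 (by omega) g1 g2 (by omega) (by omega)
          rw [this]
  rw [Finset.card_product, Finset.card_univ, Fintype.card_bool] at hinjOn
  omega

end Q167.Words
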