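import Mathlib

/-!
# Irreducible values of the longest common prefix array

`W : ℕ → ℕ` is a word of length `n` written at the positions `1, ..., n`, with sentinels: `W x = 0`
for `x > n`, and `W 0` is a letter which occurs nowhere else.
-/

set_option autoImplicit false

namespace Q167.Words

/-- `W` is a word of length `n` with sentinels. -/
structure Sent (n : ℕ) (W : ℕ → ℕ) : Prop where
  zero_iff : ∀ x, W x = 0 ↔ n < x
  first : ∀ x, 1 ≤ x → W 0 ≠ W x

/-- The suffix starting at `i`, as an element of the lexicographic order. -/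
def suf (W : ℕ → ℕ) (i : ℕ) : Lex (ℕ → ℕ) := toLex (fun t => W (i + t))

/-- The words of length `m` at the positions `i` and `j` agree. -/
def Agree (W : ℕ → ℕ) (i j m : ℕ) : Prop := ∀ t < m, W (i + t) = W (j + t)

variable {n : ℕ} {W : ℕ → ℕ}

lemma Agree.symm {i j m : ℕ} (h : Agree W i j m) : Agree W j i m := fun t ht => (h t ht).symm

lemma Agree.mono {i j m m' : ℕ} (h : Agree W i j m) (hm : m' ≤ m) : Agree W i j m' :=
  fun t ht => h t (lt_of_lt_of_le ht hm)

lemma Agree.trans {i j l m : ℕ} (h : Agree W i j m) (h' : Agree W j l m) : Agree W i l m :=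
  fun t ht => (h t ht).trans (h' t ht)

lemma suf_lt_iff {i j : ℕ} : suf W j < suf W i ↔ ∃ t, Agree W j i t ∧ W (j + t) < W (i + t) :=
  Iff.rfl

/-- Betweenness in the lexicographic order. -/
lemma Agree.between {i j l m : ℕ} (h : Agree W i j m) (h1 : suf W j ≤ suf W l)
    (h2 : suf W l ≤ suf W i) : Agree W i l m := by
  intro t
  induction t using Nat.strong_induction_on with
  | _ t ih =>
    intro ht
    have hag : Agree W i l t := fun s hs => ih s hs (hs.trans ht)
    rcases lt_trichotomy (W (i + t)) (W (l + t)) with h3 | h3 | h3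
    · exact absurd (suf_lt_iff.2 ⟨t, hag, h3⟩) (not_lt.2 h2)
    · exact h3
    · have h4 : suf W l < suf W j := by
        refine suf_lt_iff.2 ⟨t, hag.symm.trans (h.mono ht.le), ?_⟩
        rw [← h t ht]
        exact h3
      exact absurd h4 (not_lt.2 h1)

/-- Different positions have different suffixes, with a quantitative version. -/
lemma Agree.le {i j m : ℕ} (hW : Sent n W) (hij : i ≠ j) (hi : i ≤ n) (hj : j ≤ n)
    (h : Agree W i j m) : i + m ≤ n + 1 := by
  by_contra hcon
  push Not at hcon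
  have h1 := h (n + 1 - i) (by omega)
  rw [show i + (n + 1 - i) = n + 1 by omega, (hW.zero_iff (n + 1)).2 (by omega)] at h1
  have h2 := (hW.zero_iff _).1 h1.symm
  have h3 := h (n + 1 - j) (by omega)
  rw [show j + (n + 1 - j) = n + 1 by omega, (hW.zero_iff (n + 1)).2 (by omega)] at h3
  have h4 := (hW.zero_iff _).1 h3
  omega

lemma suf_ne (hW : Sent n W) {i j : ℕ} (hij : i ≠ j) (hi : i ≤ n) (hj : j ≤ n) :
    suf W i ≠ suf W j := by
  intro h
  have h1 : ∀ t, W (i + t) = W (j + t) := fun t => congrFun h t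
  have h2 : Agree W i j (n + 2) := fun t _ => h1 t
  have := h2.le hW hij hi hj
  omega

/-- The position `i` repeats a word of length `m` at a position with a smaller suffix. -/
def Rep (n : ℕ) (W : ℕ → ℕ) (i m : ℕ) : Prop :=
  ∃ j, 1 ≤ j ∧ j ≤ n ∧ suf W j < suf W i ∧ Agree W i j m

open Classical in
/-- The value of the longest common prefix array. -/
noncomputable def ell (n : ℕ) (W : ℕ → ℕ) (i : ℕ) : ℕ := Nat.findGreatest (Rep n W i) n

lemma Rep.mono {i m m' : ℕ} (h : Rep n W i m) (hm : m' ≤ m) : Rep n W i m' := by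
  obtain ⟨j, h1, h2, h3, h4⟩ := h
  exact ⟨j, h1, h2, h3, h4.mono hm⟩

lemma Rep.le (hW : Sent n W) {i m : ℕ} (hi : i ≤ n) (h : Rep n W i m) : i + m ≤ n + 1 := by
  obtain ⟨j, h1, h2, h3, h4⟩ := h
  exact h4.le hW (by rintro rfl; exact lt_irrefl _ h3) hi h2

lemma le_ell_iff (hW : Sent n W) {i m : ℕ} (hi1 : 1 ≤ i) (hi : i ≤ n) (hm : 1 ≤ m) :
    m ≤ ell n W i ↔ Rep n W i m := by
  classical
  constructor
  · intro h
    have h1 : ell n W i ≠ 0 := by omega
    have h2 : Rep n W i (ell n W i) := by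
      have := Nat.findGreatest_of_ne_zero (P := Rep n W i) (n := n) (m := ell n W i) rfl h1
      exact this
    exact h2.mono h
  · intro h
    exact Nat.le_findGreatest (by have := h.le hW hi; omega) h

lemma ell_le (hW : Sent n W) {i : ℕ} (hi1 : 1 ≤ i) (hi : i ≤ n) : i + ell n W i ≤ n + 1 := by
  rcases Nat.eq_zero_or_pos (ell n W i) with h | h
  · omega
  · exact ((le_ell_iff hW hi1 hi h).1 le_rfl).le hW hi

/-- The values decrease by at most one. -/
lemma ell_succ (hW : Sent n W) {i : ℕ} (hi1 : 1 ≤ i) (hi : i + 1 ≤ n) :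
    ell n W i ≤ ell n W (i + 1) + 1 := by
  by_contra hcon
  push Not at hcon
  obtain ⟨m, hm⟩ : ∃ m, ell n W i = m + 1 := ⟨ell n W i - 1, by omega⟩
  have hm1 : 1 ≤ m := by omega
  have h1 : Rep n W i (m + 1) := (le_ell_iff hW hi1 (by omega) (by omega)).1 (by omega)
  obtain ⟨j, hj1, hj2, hj3, hj4⟩ := h1
  have hij : j ≠ i := by rintro rfl; exact lt_irrefl _ hj3
  have h2 : j + (m + 1) ≤ n + 1 := hj4.symm.le hW hij hj2 (by omega)
  have h3 : Rep n W (i + 1) m := by
    refine ⟨j + 1, by omega, by omega, ?_, ?_⟩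
    · obtain ⟨t, ht1, ht2⟩ := suf_lt_iff.1 hj3
      have ht0 : t ≠ 0 := by
        rintro rfl
        have := hj4 0 (by omega)
        omega
      obtain ⟨s, rfl⟩ : ∃ s, t = s + 1 := ⟨t - 1, by omega⟩
      refine suf_lt_iff.2 ⟨s, fun r hr => ?_, ?_⟩
      · have := ht1 (r + 1) (by omega)
        rw [show j + 1 + r = j + (r + 1) by ring, show i + 1 + r = i + (r + 1) by ring]
        exact this
      · rw [show j + 1 + s = j + (s + 1) by ring, show i + 1 + s = i + (s + 1) by ring]
        exact ht2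
    · intro r hr
      have := hj4 (r + 1) (by omega)
      rw [show j + 1 + r = j + (r + 1) by ring, show i + 1 + r = i + (r + 1) by ring]
      exact this
  have h4 := (le_ell_iff hW (by omega) hi hm1).2 h3
  omega

lemma ell_add (hW : Sent n W) {i : ℕ} (hi1 : 1 ≤ i) (d : ℕ) (hi : i + d ≤ n) :
    ell n W i ≤ ell n W (i + d) + d := by
  induction d with
  | zero => simp
  | succ d ih =>
    have h1 := ih (by omega)
    have h2 := ell_succ hW (i := i + d) (by omega) (by omega)
    rw [show i + (d + 1) = i + d + 1 by ring]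
    omega

/-- The immediate predecessor in the order of suffixes. -/
lemma exists_pred (hW : Sent n W) : ∃ Φ : ℕ → ℕ,
    (∀ i, 1 ≤ i → i ≤ n → 1 ≤ ell n W i → 1 ≤ Φ i ∧ Φ i ≤ n ∧ suf W (Φ i) < suf W i ∧
      Agree W i (Φ i) (ell n W i)) ∧
    (∀ i i', 1 ≤ i → i ≤ n → 1 ≤ ell n W i → 1 ≤ i' → i' ≤ n → 1 ≤ ell n W i' → Φ i = Φ i' →
      i = i') := by
  classical
  have key : ∀ i, 1 ≤ i → i ≤ n → 1 ≤ ell n W i → ∃ j, 1 ≤ j ∧ j ≤ n ∧ suf W j < suf W i ∧
      ∀ l, 1 ≤ l → l ≤ n → suf W l < suf W i → suf W l ≤ suf W j := by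
    intro i hi1 hi hl
    obtain ⟨j, hj1, hj2, hj3, hj4⟩ := (le_ell_iff hW hi1 hi hl).1 le_rfl
    obtain ⟨b, hb, hbmax⟩ := Finset.exists_max_image
      ((Finset.Icc 1 n).filter (fun l => suf W l < suf W i)) (suf W)
      ⟨j, by rw [Finset.mem_filter, Finset.mem_Icc]; exact ⟨⟨hj1, hj2⟩, hj3⟩⟩
    rw [Finset.mem_filter, Finset.mem_Icc] at hb
    refine ⟨b, hb.1.1, hb.1.2, hb.2, fun l hl1 hl2 hl3 => hbmax l ?_⟩
    rw [Finset.mem_filter, Finset.mem_Icc]
    exact ⟨⟨hl1, hl2⟩, hl3⟩
  choose! Φ hΦ1 hΦ2 hΦ3 hΦ4 using key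
  refine ⟨Φ, fun i hi1 hi hl => ?_, fun i i' hi1 hi hl hi1' hi' hl' heq => ?_⟩
  · refine ⟨hΦ1 i hi1 hi hl, hΦ2 i hi1 hi hl, hΦ3 i hi1 hi hl, ?_⟩
    obtain ⟨j, hj1, hj2, hj3, hj4⟩ := (le_ell_iff hW hi1 hi hl).1 le_rfl
    exact hj4.between (hΦ4 i hi1 hi hl j hj1 hj2 hj3) (hΦ3 i hi1 hi hl).le
  · by_contra hne
    rcases lt_or_gt_of_ne (suf_ne hW hne hi hi') with h | h
    · have h1 := hΦ4 i' hi1' hi' hl' i hi1 hi h
      rw [← heq] at h1
      exact absurd (hΦ3 i hi1 hi hl) (not_lt.2 h1)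
    · have h1 := hΦ4 i hi1 hi hl i' hi1' hi' h
      rw [heq] at h1
      exact absurd (hΦ3 i' hi1' hi' hl') (not_lt.2 h1)

/-- Irreducible positions: the value is not one less than the previous one. -/
def Irr (n : ℕ) (W : ℕ → ℕ) (i : ℕ) : Prop := i = 1 ∨ ell n W (i - 1) ≤ ell n W i

/-- At an irreducible position the match does not extend to the left. -/
lemma left_ne (hW : Sent n W) {i j : ℕ} (hi1 : 1 ≤ i) (hi : i ≤ n) (hl : 1 ≤ ell n W i)
    (hirr : Irr n W i) (hj1 : 1 ≤ j) (hj : j ≤ n) (hlt : suf W j < suf W i)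
    (hag : Agree W i j (ell n W i)) : W (i - 1) ≠ W (j - 1) := by
  intro heq
  have hij : j ≠ i := by rintro rfl; exact lt_irrefl _ hlt
  rcases Nat.eq_or_lt_of_le hi1 with h1 | h1
  · have h2 : 1 ≤ j - 1 := by omega
    have := hW.first (j - 1) h2
    rw [← h1] at heq
    exact this heq
  rcases Nat.eq_or_lt_of_le hj1 with h2 | h2
  · have h3 : 1 ≤ i - 1 := by omega
    have := hW.first (i - 1) h3
    rw [← h2] at heq
    exact this heq.symm
  have hrep : Rep n W (i - 1) (ell n W i + 1) := by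
    refine ⟨j - 1, by omega, by omega, ?_, ?_⟩
    · obtain ⟨t, ht1, ht2⟩ := suf_lt_iff.1 hlt
      refine suf_lt_iff.2 ⟨t + 1, fun r hr => ?_, ?_⟩
      · rcases Nat.eq_zero_or_pos r with rfl | hr0
        · simpa using heq.symm
        · have := ht1 (r - 1) (by omega)
          rw [show j + (r - 1) = j - 1 + r by omega, show i + (r - 1) = i - 1 + r by omega] at this
          exact this
      · rw [show j - 1 + (t + 1) = j + t by omega, show i - 1 + (t + 1) = i + t by omega]
        exact ht2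
    · intro r hr
      rcases Nat.eq_zero_or_pos r with rfl | hr0
      · simpa using heq
      · have := hag (r - 1) (by omega)
        rw [show j + (r - 1) = j - 1 + r by omega, show i + (r - 1) = i - 1 + r by omega] at this
        exact this
  have h4 := (le_ell_iff hW (by omega) (by omega) (by omega)).2 hrep
  rcases hirr with h5 | h5
  · omega
  · omega

/-- The last irreducible position before `i`. -/
lemma exists_irr (hW : Sent n W) {i : ℕ} (hi1 : 1 ≤ i) (hi : i ≤ n) :
    ∃ i₀, 1 ≤ i₀ ∧ i₀ ≤ i ∧ Irr n W i₀ ∧ i₀ + ell n W i₀ = i + ell n W i := by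
  induction i with
  | zero => omega
  | succ i ih =>
    by_cases hirr : Irr n W (i + 1)
    · exact ⟨i + 1, hi1, le_rfl, hirr, rfl⟩
    · rw [Irr, not_or] at hirr
      obtain ⟨h1, h2⟩ := hirr
      rw [Nat.add_sub_cancel] at h2
      push Not at h2
      have h3 := ell_succ hW (i := i) (by omega) hi
      obtain ⟨i₀, h4, h5, h6, h7⟩ := ih (by omega) (by omega)
      exact ⟨i₀, h4, by omega, h6, by omega⟩

end Q167.Words
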